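import Pool.Agent.H23.CMC.Targets
import Pool.Agent.H78.CMC.FGMN

/-!
# MP_52e316_nt, board `cm4_modules`: row G_GLN, the lower bound for the Gamma factor
-/

set_option autoImplicit false

open NumberField MeasureTheory Set Filter Complex
open scoped nonZeroDivisors Real

namespace Pool.Agent.H31.CMC

open Pool.Agent.H23.CMC
open Pool.Agent.H65.CM4 (Sq nm dg Pl rv)
open Pool.Agent.H65.CMC (Emb ty PrTo IsHk ms IsLk gg GM cG Km Idx cdc Fmc lc)

theorem pf_GLN : T_GLNc := by
  intro k _ _
  have hπ := Real.pi_pos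
  have hG := Pool.Agent.H61.GLH.G0_pos
  set D : ℝ := 2 * Pool.Agent.H61.GLH.G0 ^ 2 * ((64 / 9) * (2 * π)) with hD
  have hD0 : 0 < D := by positivity
  refine ⟨D ^ Fintype.card (Pl k), 2 * Fintype.card (Pl k), by positivity, fun m s hs => ?_⟩
  have ht := abs_nonneg s.im
  have hms : ∀ v : Pl k, |(m v : ℝ)| ≤ ms m := by
    intro v
    exact Finset.single_le_sum (f := fun v => |(m v : ℝ)|) (fun _ _ => abs_nonneg _)
      (Finset.mem_univ v)
  have hms0 : 0 ≤ ms m := Finset.sum_nonneg fun v _ => abs_nonneg _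
  unfold cG GM Tc
  rw [norm_prod]
  calc ∏ v : Pl k, ‖Complex.Gamma (1 / 2 + ((|m v| : ℤ) : ℂ) + s.im * Complex.I)‖
      ≤ ∏ v : Pl k, (D * (1 + |s.im| + ms m) ^ 2 * ‖gg (m v) s‖) := by
        refine Finset.prod_le_prod (fun v _ => norm_nonneg _) fun v _ => ?_
        refine (Pool.Agent.H78.CMC.gg_low s hs (m v)).trans ?_
        have h1 : (1 + |s.im|) * (1 + |(m v : ℝ)|) ≤ (1 + |s.im| + ms m) ^ 2 := by
          rw [sq]
          have := hms v
          have := abs_nonneg (m v : ℝ)
          exact mul_le_mul (by linarith) (by linarith) (by linarith) (by linarith)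
        calc 2 * Pool.Agent.H61.GLH.G0 ^ 2 * ((64 / 9) * (2 * π)) * (1 + |s.im|) *
              (1 + |(m v : ℝ)|) * ‖gg (m v) s‖ =
                D * ((1 + |s.im|) * (1 + |(m v : ℝ)|)) * ‖gg (m v) s‖ := by rw [hD]; ring
          _ ≤ _ := by gcongr
    _ = _ := by
        rw [Finset.prod_mul_distrib, Finset.prod_mul_distrib, Finset.prod_const,
          Finset.prod_const, Finset.card_univ, ← pow_mul]

end Pool.Agent.H31.CMC
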