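import Pool.Agent.H95.CMC.Targets

/-!
# Part C of stage 2: the number of the pairs of a line and a sublattice, with characters
-/

set_option autoImplicit false
set_option linter.unusedSectionVars false
set_option linter.unusedVariables false

open MeasureTheory Set Filter NumberField
open scoped Real nonZeroDivisors

namespace Pool.Agent.H31.CMC

open Pool.Agent.H65.CM4 Pool.Agent.H65.CMC Pool.Agent.H95.CMC
open Pool.Agent.H95.CM (lin Nr mem_Nr T_MEM)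

/-- ideals with relative norm prime to `f` -/
theorem cvv_coprime (k K : Type) [Field k] [NumberField k] [Field K] [NumberField K] [Algebra k K]
    (f : Ideal (𝓞 k)) (J : Ideal (𝓞 K)) (hJ : J ≠ ⊥) :
    PrTo f J ↔ Ideal.relNorm (𝓞 k) J ⊔ f = ⊤ := by
  constructor
  · intro h
    by_contra hne
    obtain ⟨P, hPm, hP⟩ := Ideal.exists_le_maximal _ hne
    have h1 : J.comap (algebraMap (𝓞 k) (𝓞 K)) ≤ P := by
      intro y hy
      have h1 : (Ideal.span {y}).map (algebraMap (𝓞 k) (𝓞 K)) ≤ J := by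
        rw [Ideal.map_le_iff_le_comap, Ideal.span_le]
        intro z hz
        rw [Set.mem_singleton_iff.1 hz]
        exact hy
      have h2 := Ideal.relNorm_mono (𝓞 k) h1
      rw [Ideal.relNorm_algebraMap] at h2
      have h3 : y ^ Module.finrank (𝓞 k) (𝓞 K) ∈ P :=
        hP (Ideal.mem_sup_left (h2 (Ideal.pow_mem_pow (Ideal.mem_span_singleton_self y) _)))
      exact hPm.isPrime.mem_of_pow_mem _ h3
    obtain ⟨Q, h2, h3, h4⟩ := Ideal.exists_ideal_over_prime_of_isIntegral P _ h1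
    refine h3.ne_top (top_le_iff.1 ?_)
    rw [← h.2]
    refine sup_le h2 ?_
    rw [Ideal.map_le_iff_le_comap, h4]
    exact le_sup_right.trans hP
  · intro h
    refine ⟨hJ, ?_⟩
    by_contra hne
    obtain ⟨Q, hQm, hQ⟩ := Ideal.exists_le_maximal _ hne
    have h1 : Ideal.relNorm (𝓞 k) J ≤ Q.comap (algebraMap (𝓞 k) (𝓞 K)) :=
      (Ideal.relNorm_le_comap (𝓞 k) J).trans (Ideal.comap_mono (le_sup_left.trans hQ))
    have h2 : f ≤ Q.comap (algebraMap (𝓞 k) (𝓞 K)) := by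
      rw [← Ideal.map_le_iff_le_comap]
      exact le_sup_right.trans hQ
    have h3 : (⊤ : Ideal (𝓞 k)) ≤ Q.comap (algebraMap (𝓞 k) (𝓞 K)) := by
      rw [← h]
      exact sup_le h1 h2
    exact hQm.ne_top (Ideal.comap_eq_top_iff.1 (top_le_iff.1 h3))

theorem pf_CVV (hMEM : T_MEM) (hLNB : T_LNB) (hLNI : T_LNI) (hPRI : T_PRI) (hVAN : T_VAN)
    (hLSX : T_LSX) (hEJA : T_EJA) (hEJB : T_EJB) : T_CVV := by
  classical
  intro k K _ _ _ _ _ _ _ _ Φ f m ψ b B y R hΦ hψ hb c 𝔞 h𝔞 hsq hab v hv hv0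
  have hI := R.pr c
  set I : Ideal (𝓞 K) := (R.I c : Ideal (𝓞 K)) with hIdef
  have hns : ∀ Λ ∈ Ln f I, ns Λ = Ideal.relNorm (𝓞 k) I := by
    intro Λ hΛ
    obtain ⟨l, hl, hlp, rfl⟩ := ((hLNB k K f I hψ.fne hI).1 Λ).1 hΛ
    exact (hLNI k K f I l hψ.fne hI hl hlp).2
  -- the finite set of the sublattices
  set g : Sl k K → La k → Sl k K := fun Λ L => us (R.α Λ) (R.β Λ) (R.M Λ ⊓ L) with hg
  set E : Sl k K → Finset (Sl k K) := fun Λ =>
    ((Ls 𝔞).filter (fun L => Dv 𝔞 L (R.Q Λ))).image (g Λ) with hE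
  have hLS := fun (Λ : Sl k K) (hΛ : Λ ∈ Ln f I) =>
    hLSX k K b Λ (R.α Λ) (R.β Λ) (R.μ Λ) (R.M Λ) (R.Q Λ) hb (R.ol c Λ hΛ) 𝔞 h𝔞 hab
  have hEm : ∀ Λ ∈ Ln f I, ∀ Λ' : Sl k K, Λ' ∈ E Λ ↔ Λ' ∈ Es 𝔞 (Ideal.relNorm (𝓞 k) I) Λ := by
    intro Λ hΛ Λ'
    obtain ⟨h1, h2, h3⟩ := hLS Λ hΛ
    rw [hns Λ hΛ] at h1 h2
    rw [hE, Finset.mem_image]
    constructor
    · rintro ⟨L, hL, rfl⟩
      rw [Finset.mem_filter] at hL
      exact h1 L hL.1 hL.2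
    · intro h
      obtain ⟨L, hL, hD, e⟩ := h2 Λ' h
      exact ⟨L, Finset.mem_filter.2 ⟨hL, hD⟩, e⟩
  have hinner : ∀ Λ ∈ Ln f I, ∑ L ∈ (Ls 𝔞).filter (fun L => Dv 𝔞 L (R.Q Λ)),
      (if v ∈ us (R.α Λ) (R.β Λ) (R.M Λ ⊓ L) then rh Φ m ψ f I Λ else 0) =
      ∑ Λ' ∈ E Λ, if v ∈ Λ' then rh Φ m ψ f I Λ else 0 := by
    intro Λ hΛ
    rw [hE, Finset.sum_image]
    intro L hL L' hL' h
    rw [Finset.mem_coe, Finset.mem_filter] at hL hL'
    exact (hLS Λ hΛ).2.2 L hL.1 L' hL'.1 h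
  rw [Finset.sum_congr rfl hinner]
  by_cases hcop : 𝔞 ⊔ f = ⊤
  · -- coprime
    have hJne : ∀ J : (Ideal (𝓞 K))⁰, (J : Ideal (𝓞 K)) ≠ ⊥ := fun J =>
      nonZeroDivisors.coe_ne_zero J
    have hE2 : ∀ Λ ∈ Ln f I, ∑ Λ' ∈ E Λ, (if v ∈ Λ' then rh Φ m ψ f I Λ else 0) =
        ∑ J ∈ Nr k K 𝔞, if v ∈ Λ ∧ v ∈ (J : Ideal (𝓞 K)) * I then rh Φ m ψ f I Λ else 0 := by
      intro Λ hΛ
      obtain ⟨hA1, hA2⟩ := hEJA k K f I hψ.fne hI Λ hΛ
      have e : E Λ = (Nr k K 𝔞).image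
          (fun J : (Ideal (𝓞 K))⁰ => Λ ⊓ ((J : Ideal (𝓞 K)) * I).restrictScalars (𝓞 k)) := by
        ext Λ'
        rw [hEm Λ hΛ, Finset.mem_image]
        constructor
        · intro h
          obtain ⟨J, hJ, hJn, e⟩ := hEJB k K f I b Λ (R.α Λ) (R.β Λ) (R.μ Λ) (R.M Λ) (R.Q Λ)
            hψ.fne hI hΛ hb (R.ol c Λ hΛ) 𝔞 h𝔞 hab hcop Λ' h
          exact ⟨⟨J, mem_nonZeroDivisors_of_ne_zero hJ⟩, (mem_Nr (k := k)).2 hJn, e.symm⟩
        · rintro ⟨J, hJ, rfl⟩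
          rw [mem_Nr] at hJ
          have := hA1 (J : Ideal (𝓞 K)) (hJne J) (by rw [hJ]; exact hsq) (by rw [hJ]; exact hcop)
          rwa [hJ] at this
      rw [e, Finset.sum_image]
      · refine Finset.sum_congr rfl (fun J hJ => ?_)
        exact if_congr Iff.rfl rfl rfl
      · intro J hJ J' hJ' h
        rw [Finset.mem_coe, mem_Nr] at hJ hJ'
        exact Subtype.ext (hA2 J J' (hJne J) (hJne J') (by rw [hJ]; exact hcop)
          (by rw [hJ']; exact hcop) h)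
    rw [Finset.sum_congr rfl hE2, Finset.sum_comm]
    refine Finset.sum_congr rfl (fun J hJ => ?_)
    rw [mem_Nr] at hJ
    have hPJ : PrTo f (J : Ideal (𝓞 K)) :=
      (cvv_coprime k K f J (hJne J)).2 (by rw [hJ]; exact hcop)
    by_cases hvJ : v ∈ (J : Ideal (𝓞 K)) * I
    · have e1 : ∑ Λ ∈ Ln f I, (if v ∈ Λ ∧ v ∈ (J : Ideal (𝓞 K)) * I then rh Φ m ψ f I Λ else 0) =
          ∑ Λ ∈ (Ln f I).filter (fun Λ : Sl k K => v ∈ Λ), rh Φ m ψ f I Λ := by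
        rw [Finset.sum_filter]
        exact Finset.sum_congr rfl (fun Λ _ => if_congr (and_iff_left hvJ) rfl rfl)
      rw [e1]
      by_cases hvp : PrTo f (Ideal.span {v})
      · rw [if_pos ⟨hPJ, hvJ, hvp⟩]
        have e2 : (Ln f I).filter (fun Λ : Sl k K => v ∈ Λ) = {ln f I v} := by
          ext Λ
          rw [Finset.mem_filter, Finset.mem_singleton]
          obtain ⟨h1, h2, h3⟩ := hLNB k K f I hψ.fne hI
          constructor
          · rintro ⟨h4, h5⟩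
            exact (h2 v hv hvp Λ h4).1 h5
          · intro h
            have h4 : Λ ∈ Ln f I := (h1 Λ).2 ⟨v, hv, hvp, h⟩
            exact ⟨h4, (h2 v hv hvp Λ h4).2 h⟩
        rw [e2, Finset.sum_singleton]
      · rw [if_neg (fun h => hvp h.2.2)]
        exact hPRI k K Φ f m ψ I hΦ hψ hI v hv hv0 hvp
    · rw [if_neg (fun h => hvJ h.2.1)]
      refine Finset.sum_eq_zero (fun Λ _ => if_neg (fun h => hvJ h.2))
  · -- not coprime
    have hR : ∑ J ∈ Nr k K 𝔞, (if PrTo f (J : Ideal (𝓞 K)) ∧ v ∈ (J : Ideal (𝓞 K)) * I ∧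
        PrTo f (Ideal.span {v}) then rh Φ m ψ f I (ln f I v) else 0) = 0 := by
      refine Finset.sum_eq_zero (fun J hJ => if_neg ?_)
      rintro ⟨h1, -⟩
      rw [mem_Nr] at hJ
      have h2 := (cvv_coprime k K f J (nonZeroDivisors.coe_ne_zero J)).1 h1
      rw [hJ] at h2
      exact hcop h2
    rw [hR]
    have e1 : ∀ Λ ∈ Ln f I, ∑ Λ' ∈ E Λ, (if v ∈ Λ' then rh Φ m ψ f I Λ else 0) =
        ∑ Λ' ∈ (Ln f I).biUnion E, if Λ' ∈ Es 𝔞 (Ideal.relNorm (𝓞 k) I) Λ then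
          (if v ∈ Λ' then rh Φ m ψ f I Λ else 0) else 0 := by
      intro Λ hΛ
      rw [← Finset.sum_filter (fun Λ' : Sl k K => Λ' ∈ Es 𝔞 (Ideal.relNorm (𝓞 k) I) Λ)]
      refine Finset.sum_congr ?_ (fun _ _ => rfl)
      ext Λ'
      rw [Finset.mem_filter, Finset.mem_biUnion]
      constructor
      · intro h
        exact ⟨⟨Λ, hΛ, h⟩, (hEm Λ hΛ Λ').1 h⟩
      · rintro ⟨-, h⟩
        exact (hEm Λ hΛ Λ').2 h
    rw [Finset.sum_congr rfl e1, Finset.sum_comm]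
    refine Finset.sum_eq_zero (fun Λ' hΛ' => ?_)
    rw [← Finset.sum_filter]
    by_cases hvΛ : v ∈ Λ'
    · simp only [if_pos hvΛ]
      exact hVAN k K Φ f m ψ I hΦ hψ hI 𝔞 h𝔞 hsq hcop Λ'
    · simp only [if_neg hvΛ, Finset.sum_const_zero]

end Pool.Agent.H31.CMC
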