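import Pool.Agent.H95.CMC.Targets

/-!
# Part C of stage 2: cancellation over the lines with a sublattice of an index not prime to `f`
-/

set_option autoImplicit false
set_option linter.unusedSectionVars false

open MeasureTheory Set Filter NumberField
open scoped Real nonZeroDivisors

namespace Pool.Agent.H31.CMC

open Pool.Agent.H65.CM4 Pool.Agent.H65.CMC Pool.Agent.H95.CMC

section core

variable {k K : Type} [Field k] [NumberField k] [Field K] [NumberField K] [Algebra k K]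

/-- a prime over `P` which contains a given integer with norm in `P` -/
theorem van_prime (P : Ideal (𝓞 k)) [hP : P.IsMaximal] (x : 𝓞 K)
    (hx : Algebra.intNorm (𝓞 k) (𝓞 K) x ∈ P) :
    ∃ Q : Ideal (𝓞 K), Q.IsPrime ∧ Q.comap (algebraMap (𝓞 k) (𝓞 K)) = P ∧ x ∈ Q := by
  have h : (Ideal.span {x}).comap (algebraMap (𝓞 k) (𝓞 K)) ≤ P := by
    intro y hy
    have h1 : (Ideal.span {y}).map (algebraMap (𝓞 k) (𝓞 K)) ≤ Ideal.span {x} := by
      rw [Ideal.map_le_iff_le_comap, Ideal.span_le]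
      intro z hz
      rw [Set.mem_singleton_iff.1 hz]
      exact hy
    have h2 := Ideal.relNorm_mono (𝓞 k) h1
    rw [Ideal.relNorm_algebraMap, Ideal.relNorm_singleton] at h2
    have h3 : y ^ Module.finrank (𝓞 k) (𝓞 K) ∈ P := by
      refine (Ideal.span_le.2 (Set.singleton_subset_iff.2 hx)) (h2 ?_)
      exact Ideal.pow_mem_pow (Ideal.mem_span_singleton_self y) _
    exact hP.isPrime.mem_of_pow_mem _ h3
  obtain ⟨Q, h1, h2, h3⟩ := Ideal.exists_ideal_over_prime_of_isIntegral P _ h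
  exact ⟨Q, h2, h3, h1 (Ideal.mem_span_singleton_self x)⟩

/-- an integer prime to `f` is not in a prime which contains `f` -/
theorem van_notmem {f : Ideal (𝓞 k)} {l : 𝓞 K} (hl : PrTo f (Ideal.span {l})) {Q : Ideal (𝓞 K)}
    (hQ : Q.IsPrime) (hf : f.map (algebraMap (𝓞 k) (𝓞 K)) ≤ Q) : l ∉ Q := by
  intro h
  refine hQ.ne_top (top_le_iff.1 ?_)
  rw [← hl.2]
  exact sup_le (Ideal.span_le.2 (Set.singleton_subset_iff.2 h)) hf

theorem van_ln_mem (f : Ideal (𝓞 k)) (I : Ideal (𝓞 K)) (l x : 𝓞 K) :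
    x ∈ ln f I l ↔ ∃ n : 𝓞 k, x - algebraMap (𝓞 k) (𝓞 K) n * l ∈
    f.map (algebraMap (𝓞 k) (𝓞 K)) * I := Iff.rfl

/-- the elements of `lp P f I Λ` are in the primes over `P` -/
theorem van_lp_le {P f : Ideal (𝓞 k)} {I : Ideal (𝓞 K)} {Λ : Sl k K} {Q : Ideal (𝓞 K)}
    (hP : Q.comap (algebraMap (𝓞 k) (𝓞 K)) = P)
    (hf : f.map (algebraMap (𝓞 k) (𝓞 K)) ≤ Q) : ∀ x ∈ lp P f I Λ, x ∈ Q := by
  have h : lp P f I Λ ≤ Q.restrictScalars (𝓞 k) := by
    refine sup_le ?_ ?_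
    · rw [Submodule.smul_le]
      intro r hr n hn
      rw [Submodule.restrictScalars_mem, Algebra.smul_def]
      refine Ideal.mul_mem_right _ _ ?_
      rw [← hP] at hr
      exact hr
    · intro z hz
      rw [Submodule.restrictScalars_mem] at hz ⊢
      exact hf (Ideal.mul_le_left hz)
  exact fun x hx => h hx

/-- the sublattices of a second line -/
theorem van_core {P 𝔟 f : Ideal (𝓞 k)} [hPm : P.IsMaximal] (hPf : f ≤ P) (h𝔟 : P ⊔ 𝔟 = ⊤)
    {𝔪 : Ideal (𝓞 k)} {I : Ideal (𝓞 K)} {l0 l1 : 𝓞 K} (hl0 : PrTo f (Ideal.span {l0}))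
    (hl1 : PrTo f (Ideal.span {l1})) {Λ' : Sl k K}
    (hD : lp P f I (ln f I l1) = lp P f I (ln f I l0))
    (hE : Λ' ∈ Es (P * 𝔟) 𝔪 (ln f I l0)) : Λ' ∈ Es (P * 𝔟) 𝔪 (ln f I l1) := by
  obtain ⟨hle, ⟨l, hl, hgen, hann⟩, hN⟩ := hE
  have hfQ : ∀ Q : Ideal (𝓞 K), Q.comap (algebraMap (𝓞 k) (𝓞 K)) = P →
      f.map (algebraMap (𝓞 k) (𝓞 K)) ≤ Q := by
    intro Q hQ
    rw [Ideal.map_le_iff_le_comap, hQ]
    exact hPf
  -- members of the two lines
  have hFI : ∀ (j : 𝓞 K) (z : 𝓞 K), z ∈ f.map (algebraMap (𝓞 k) (𝓞 K)) * I →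
      z ∈ lp P f I (ln f I j) := fun j z hz =>
    Submodule.mem_sup_right ((Submodule.restrictScalars_mem (𝓞 k) _ _).2 hz)
  have hPl : ∀ (j : 𝓞 K) (p : 𝓞 k) (z : 𝓞 K), p ∈ P → z ∈ ln f I j →
      p • z ∈ lp P f I (ln f I j) := fun j p z hp hz =>
    Submodule.mem_sup_left (Submodule.smul_mem_smul hp hz)
  have hself : ∀ j : 𝓞 K, j ∈ ln f I j := fun j => ⟨1, by simp⟩
  have hlple : ∀ j : 𝓞 K, lp P f I (ln f I j) ≤ ln f I j := by
    intro j
    refine sup_le (Submodule.smul_le_right) ?_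
    intro z hz
    rw [Submodule.restrictScalars_mem] at hz
    refine ⟨0, ?_⟩
    rw [map_zero, zero_mul, sub_zero]
    exact hz
  have hPne : P ≠ ⊤ := hPm.ne_top
  -- Claim 1
  have hC1 : Λ' ≤ lp P f I (ln f I l0) := by
    intro x hx
    obtain ⟨n, hn⟩ := hle hx
    obtain ⟨Q, hQp, hQP, hxQ⟩ := van_prime P x
      (Ideal.mul_le_left (Ideal.mul_le_left (hN x hx)))
    have h1 : algebraMap (𝓞 k) (𝓞 K) n * l0 ∈ Q := by
      have h2 := Q.sub_mem hxQ (hfQ Q hQP (Ideal.mul_le_left hn))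
      rwa [sub_sub_cancel] at h2
    have h2 : n ∈ P := by
      rw [← hQP]
      exact (hQp.mem_or_mem h1).resolve_right (van_notmem hl0 hQp (hfQ Q hQP))
    have h3 := (lp P f I (ln f I l0)).add_mem (hFI l0 _ hn) (hPl l0 n l0 h2 (hself l0))
    rwa [Algebra.smul_def, sub_add_cancel] at h3
  -- a prime over `P`
  obtain ⟨Q, hQm, hQP⟩ := Ideal.exists_ideal_over_maximal_of_isIntegral (S := 𝓞 K) P (by
    rw [(RingHom.injective_iff_ker_eq_bot _).mp
      (FaithfulSMul.algebraMap_injective (𝓞 k) (𝓞 K))]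
    exact bot_le)
  have hQp : Q.IsPrime := hQm.isPrime
  have hfQ' := hfQ Q hQP
  have hDQ : ∀ x ∈ lp P f I (ln f I l0), x ∈ Q := van_lp_le hQP hfQ'
  have hl0Q := van_notmem hl0 hQp hfQ'
  have hl1Q := van_notmem hl1 hQp hfQ'
  have hin : ∀ (x : 𝓞 k) (j : 𝓞 K), j ∉ Q → x • j ∈ Q → x ∈ P := by
    intro x j hj h
    rw [Algebra.smul_def] at h
    rw [← hQP]
    exact (hQp.mem_or_mem h).resolve_right hj
  have hlQ : l ∉ Q := by
    intro h
    obtain ⟨c, hc⟩ := hgen l0 (hself l0)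
    refine hl0Q ?_
    have h1 := Q.add_mem (hDQ _ (hC1 hc)) (Q.mul_mem_left (algebraMap (𝓞 k) (𝓞 K) c) h)
    rwa [Algebra.smul_def, sub_add_cancel] at h1
  -- (B)
  have hB : ∀ y ∈ lp P f I (ln f I l0), ∀ q ∈ 𝔟, q • y ∈ Λ' := by
    intro y hy q hq
    obtain ⟨c, hc⟩ := hgen y (hlple l0 hy)
    have h1 : c • l ∈ Q := by
      have h2 := Q.sub_mem (hDQ _ hy) (hDQ _ (hC1 hc))
      rwa [sub_sub_cancel] at h2
    have h2 : c ∈ P := hin c l hlQ h1
    have h3 : (c * q) • l ∈ Λ' := (hann _).2 (Ideal.mul_mem_mul h2 hq)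
    have h4 := Λ'.add_mem (Λ'.smul_mem q hc) h3
    have h5 : q • (y - c • l) + (c * q) • l = q • y := by
      rw [smul_sub, mul_comm, mul_smul, sub_add_cancel]
    rwa [h5] at h4
  obtain ⟨p, hp, q, hq, hpq⟩ : ∃ p ∈ P, ∃ q ∈ 𝔟, p + q = 1 := by
    have h1 : (1 : 𝓞 k) ∈ P ⊔ 𝔟 := by rw [h𝔟]; trivial
    obtain ⟨p, hp, q, hq, h⟩ := Submodule.mem_sup.1 h1
    exact ⟨p, hp, q, hq, h⟩
  have hl1D : ∀ x ∈ P, x • l1 ∈ lp P f I (ln f I l0) := by
    intro x hx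
    rw [← hD]
    exact hPl l1 x l1 hx (hself l1)
  have hlD : ∀ x ∈ P, x • l ∈ lp P f I (ln f I l0) := fun x hx => hPl l0 x l hx hl
  have hDl1 : ∀ x ∈ lp P f I (ln f I l0), x ∈ ln f I l1 := by
    intro x hx
    rw [← hD] at hx
    exact hlple l1 hx
  refine ⟨fun x hx => hDl1 x (hC1 hx), ⟨q • l1 + p • l, ?_, ?_, ?_⟩, hN⟩
  · exact (ln f I l1).add_mem ((ln f I l1).smul_mem q (hself l1)) (hDl1 _ (hlD p hp))
  · -- generation
    intro z hz
    -- the lattice `O g + Λ'`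
    have hG : ∀ w : 𝓞 K, w ∈ (Submodule.span (𝓞 k) {q • l1 + p • l} ⊔ Λ') →
        ∃ c : 𝓞 k, w - c • (q • l1 + p • l) ∈ Λ' := by
      intro w hw
      obtain ⟨a, ha, b, hb, hab⟩ := Submodule.mem_sup.1 hw
      obtain ⟨c, hc⟩ := Submodule.mem_span_singleton.1 ha
      refine ⟨c, ?_⟩
      rw [hc, ← hab, add_sub_cancel_left]
      exact hb
    set G : Sl k K := Submodule.span (𝓞 k) {q • l1 + p • l} ⊔ Λ' with hGdef
    have hgG : q • l1 + p • l ∈ G :=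
      Submodule.mem_sup_left (Submodule.mem_span_singleton_self _)
    have hΛG : ∀ w ∈ Λ', w ∈ G := fun w hw => Submodule.mem_sup_right hw
    -- `q ^ 2 l1`
    have e1 : (q ^ 2) • l1 ∈ G := by
      have h1 : (p * q) • l ∈ Λ' := (hann _).2 (Ideal.mul_mem_mul hp hq)
      have h2 := G.sub_mem (G.smul_mem q hgG) (hΛG _ h1)
      have h3 : q • (q • l1 + p • l) - (p * q) • l = (q ^ 2) • l1 := by
        rw [smul_add, smul_smul, smul_smul, mul_comm q p, add_sub_cancel_right, pow_two]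
      rwa [h3] at h2
    have e2 : (p ^ 2) • l ∈ G := by
      have h1 : q • (p • l1) ∈ Λ' := hB _ (hl1D p hp) q hq
      have h2 := G.sub_mem (G.smul_mem p hgG) (hΛG _ h1)
      have h3 : p • (q • l1 + p • l) - q • (p • l1) = (p ^ 2) • l := by
        rw [smul_add, smul_smul, smul_smul, smul_smul, mul_comm q p, add_sub_cancel_left,
          pow_two]
      rwa [h3] at h2
    obtain ⟨x, hx⟩ := hz
    have e3 : (q ^ 2) • z ∈ G := by
      have h1 : q • (z - algebraMap (𝓞 k) (𝓞 K) x * l1) ∈ Λ' := hB _ (hFI l0 _ hx) q hq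
      have h2 := G.add_mem (G.smul_mem x e1) (G.smul_mem q (hΛG _ h1))
      have h3 : x • ((q ^ 2) • l1) + q • (q • (z - algebraMap (𝓞 k) (𝓞 K) x * l1)) =
          (q ^ 2) • z := by
        rw [← Algebra.smul_def, smul_sub, smul_sub, smul_smul, smul_smul, smul_smul, smul_smul]
        rw [show q * q * x = x * q ^ 2 by ring, show q * q = q ^ 2 by ring]
        abel
      rwa [h3] at h2
    have e4 : (p ^ 3) • z ∈ G := by
      have h1 : p • z ∈ lp P f I (ln f I l0) := by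
        rw [← hD]
        exact hPl l1 p z hp ⟨x, hx⟩
      obtain ⟨c, hc⟩ := hgen _ (hlple l0 h1)
      have h2 := G.add_mem (G.smul_mem c e2) (G.smul_mem (p ^ 2) (hΛG _ hc))
      have h3 : c • ((p ^ 2) • l) + (p ^ 2) • (p • z - c • l) = (p ^ 3) • z := by
        rw [smul_sub, smul_smul, smul_smul, smul_smul, mul_comm c, show p ^ 2 * p = p ^ 3 by ring]
        abel
      rwa [h3] at h2
    refine hG z ?_
    have h5 := G.add_mem (G.smul_mem (p + 4 * q) e4)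
      (G.smul_mem (6 * p ^ 2 + 4 * p * q + q ^ 2) e3)
    have h6 : (p + 4 * q) • ((p ^ 3) • z) + (6 * p ^ 2 + 4 * p * q + q ^ 2) • ((q ^ 2) • z) = z := by
      rw [smul_smul, smul_smul, ← add_smul,
        show (p + 4 * q) * p ^ 3 + (6 * p ^ 2 + 4 * p * q + q ^ 2) * q ^ 2 = (p + q) ^ 4 by ring,
        hpq, one_pow, one_smul]
    rwa [h6] at h5
  · -- the annihilator
    intro x
    have hqP : q ∉ P := by
      intro h
      exact hPne ((Ideal.eq_top_iff_one P).2 (hpq ▸ P.add_mem hp h))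
    have key : x ∈ P → x • (q • l1) ∈ Λ' := by
      intro hx
      have h1 := hB _ (hl1D x hx) q hq
      rwa [smul_smul, mul_comm, ← smul_smul] at h1
    constructor
    · intro hx
      have h1 : x • (q • l1) ∈ Q := by
        have h2 := Q.sub_mem (hDQ _ (hC1 hx)) (hDQ _ (hPl l0 p (x • l) hp
          ((ln f I l0).smul_mem x hl)))
        have h3 : x • (q • l1 + p • l) - p • (x • l) = x • (q • l1) := by
          rw [smul_add, smul_smul x p, smul_smul p x, mul_comm p x, add_sub_cancel_right]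
        rwa [h3] at h2
      have hxP : x ∈ P := by
        rw [smul_smul] at h1
        exact (hPm.isPrime.mem_or_mem (hin _ _ hl1Q h1)).resolve_right hqP
      have h2 := Λ'.sub_mem hx (key hxP)
      rw [smul_add, add_sub_cancel_left, smul_smul] at h2
      have h3 : x * p ∈ P * 𝔟 := (hann _).1 h2
      have h4 : x ∈ 𝔟 := by
        have h5 := 𝔟.add_mem (Ideal.mul_le_right h3) (𝔟.mul_mem_left x hq)
        rwa [← mul_add, hpq, mul_one] at h5
      rw [Ideal.mul_eq_inf_of_coprime h𝔟]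
      exact ⟨hxP, h4⟩
    · intro hx
      have hxP : x ∈ P := Ideal.mul_le_left hx
      rw [smul_add]
      refine Λ'.add_mem (key hxP) ?_
      rw [smul_smul, mul_comm, ← smul_smul]
      exact Λ'.smul_mem p ((hann x).2 hx)

end core

theorem pf_VAN (hLNB : T_LNB) (hLNI : T_LNI) (hTAB : T_TAB) : T_VAN := by
  classical
  intro k K _ _ _ _ _ _ _ _ Φ f m ψ I hΦ hψ hI 𝔞 h𝔞 hsq hcop Λ'
  obtain ⟨P, hPm, hP⟩ := Ideal.exists_le_maximal _ hcop
  have hP𝔞 : 𝔞 ≤ P := le_sup_left.trans hP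
  have hPf : f ≤ P := le_sup_right.trans hP
  obtain ⟨ξ, T, hξ, hT, hinj⟩ := hTAB k K Φ f m ψ I hΦ hψ hI P hPm.isPrime (Ideal.dvd_iff_le.2 hPf)
  obtain ⟨𝔟, rfl⟩ := Ideal.dvd_iff_le.2 hP𝔞
  have hcb : P ⊔ 𝔟 = ⊤ := by
    by_contra h
    have h1 : 𝔟 ≤ P := by
      have := hPm.eq_of_le h le_sup_left
      rw [this]
      exact le_sup_right
    obtain ⟨𝔠, rfl⟩ := Ideal.dvd_iff_le.2 h1
    have h2 := hsq P ⟨𝔠, by rw [mul_assoc]⟩
    exact hPm.ne_top (Ideal.isUnit_iff.1 h2)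
  set S := (Ln f I).filter (fun Λ : Sl k K => Λ' ∈ Es (P * 𝔟) (Ideal.relNorm (𝓞 k) I) Λ) with hS
  have hmap : ∀ Λ ∈ S, T Λ ∈ S := by
    intro Λ hΛ
    rw [hS, Finset.mem_filter] at hΛ ⊢
    obtain ⟨h1, h2, h3⟩ := hT Λ hΛ.1
    refine ⟨h1, ?_⟩
    obtain ⟨l0, hl0, hl0p, e0⟩ := ((hLNB k K f I hψ.fne hI).1 Λ).1 hΛ.1
    obtain ⟨l1, hl1, hl1p, e1⟩ := ((hLNB k K f I hψ.fne hI).1 (T Λ)).1 h1
    have h4 := hΛ.2
    rw [e1]
    rw [e0] at h4
    refine van_core hPf hcb hl0p hl1p ?_ h4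
    rw [← e1, ← e0]
    exact h3
  have hinjS : Set.InjOn T S := by
    intro Λ hΛ Λ₂ hΛ₂ h
    rw [hS, Finset.mem_coe, Finset.mem_filter] at hΛ hΛ₂
    exact hinj Λ Λ₂ hΛ.1 hΛ₂.1 h
  have himg : S.image T = S := by
    apply Finset.eq_of_subset_of_card_le
    · intro Λ hΛ
      obtain ⟨Λ₂, h1, rfl⟩ := Finset.mem_image.1 hΛ
      exact hmap Λ₂ h1
    · rw [Finset.card_image_of_injOn hinjS]
  have hsum : ∑ Λ ∈ S, rh Φ m ψ f I Λ = ξ * ∑ Λ ∈ S, rh Φ m ψ f I Λ := by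
    conv_lhs => rw [← himg]
    rw [Finset.sum_image hinjS, Finset.mul_sum]
    refine Finset.sum_congr rfl (fun Λ hΛ => ?_)
    rw [hS, Finset.mem_filter] at hΛ
    exact (hT Λ hΛ.1).2.1
  have h0 : (1 - ξ) * ∑ Λ ∈ S, rh Φ m ψ f I Λ = 0 := by
    rw [sub_mul, one_mul, ← hsum, sub_self]
  exact (mul_eq_zero.1 h0).resolve_left (sub_ne_zero.2 (Ne.symm hξ))

end Pool.Agent.H31.CMC
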