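import Pool.Agent.H89.CMC.Targets2
import Pool.Agent.H49.CM4.TRI

/-!
# (TRIm) the twisted sums with the angular factor are invariant under translations
-/

set_option autoImplicit false

open MeasureTheory Set Filter NumberField NumberField.InfinitePlace Pool.Agent.H65.CM4
open Pool.Agent.H65.CMC Pool.Agent.H89.CM4 Pool.Agent.H89.CMC
open Pool.Agent.H49.CM4 (shr shr_apply ix_map du_map dsc_tr ls_shr dv_shr mb_shr)
open scoped Real

namespace Pool.Agent.H31.CMC

variable (k : Type) [Field k] [NumberField k] [IsTotallyReal k]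

theorem zm_shr (hFOR : T_FOR k) (hQZR : T_QZR k) (hANR : T_ANR k) (a : 𝓞 k) (s : ℂ)
    (m : Pl k → ℤ) (N : La k) (x y : Pl k → ℝ) :
    Zm s m N (fun v => x v + rv v (a : k)) y =
      Zm s m (N.map (shr a : V2 k →ₗ[𝓞 k] V2 k)) x y := by
  classical
  obtain ⟨-, hu, hq, -⟩ := hQZR
  obtain ⟨-, hau, haq⟩ := hANR
  have hx : (fun v => ((x v + rv v (a : k) : ℝ) : ℂ)) =
      fun v => (x v : ℂ) + ((rv v (a : k) : ℝ) : ℂ) := by
    funext v; push_cast; rfl
  have hq' : ∀ u : V2 k, qn (fun v => ((x v + rv v (a : k) : ℝ) : ℂ)) (fun v => (y v : ℂ)) u =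
      qn (fun v => (x v : ℂ)) (fun v => (y v : ℂ)) (shr a u) := by
    intro u
    rw [hx, shr_apply]
    exact hq (fun v => (x v : ℂ)) (fun v => (y v : ℂ)) u a
  have ha' : ∀ u : V2 k, an m (fun v => ((x v + rv v (a : k) : ℝ) : ℂ)) (fun v => (y v : ℂ)) u =
      an m (fun v => (x v : ℂ)) (fun v => (y v : ℂ)) (shr a u) := by
    intro u
    rw [hx, shr_apply]
    exact haq m (fun v => (x v : ℂ)) (fun v => (y v : ℂ)) u a
  have hae : ∀ (e : (𝓞 k)ˣ) (u : V2 k),
      an m (fun v => (x v : ℂ)) (fun v => (y v : ℂ)) ((e : 𝓞 k) • u) =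
        an m (fun v => (x v : ℂ)) (fun v => (y v : ℂ)) u := fun e u => hau m _ _ u _ e.ne_zero
  unfold Zm Em
  rw [ix_map, du_map]
  have e1 := hFOR.2 (shr a) N (fun u => an m (fun v => (x v : ℂ)) (fun v => (y v : ℂ)) u *
    Km m s (qn (fun v => (x v : ℂ)) (fun v => (y v : ℂ)) u / (ix N : ℂ)))
    (fun e u => by simp only [hu, hae])
  have e2 := hFOR.2 (shr a) (du N) (fun u =>
    an m (fun v => (x v : ℂ)) (fun v => (y v : ℂ)) u * Km m (1 - s)
    ((ix N : ℂ) * qn (fun v => (x v : ℂ)) (fun v => (y v : ℂ)) u /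
      ((dk k * ix N : ℕ) : ℂ) ^ (2 * dg k)))
    (fun e u => by simp only [hu, hae])
  simp only [hq', ha']
  rw [e1, e2]

theorem pf_TRIm (hFOR : T_FOR k) (hQZR : T_QZR k) (hANR : T_ANR k) (hFLS : T_FLS k)
    (hIDC : T_IDC k) : T_TRIm k := by
  classical
  intro b m M s α A Q x hb hM hQ
  set a : 𝓞 k := (b : 𝓞 k) * x with ha
  have hzx : zx (tr a Q) = fun v => zx Q v + rv v (a : k) := by
    funext v
    have h0 : rv v (Q.1 : k) ≠ 0 := (hQ v).1.ne'
    simp only [zx, tr]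
    push_cast
    simp only [map_add, map_mul, map_ofNat]
    field_simp
  have hzy : zy (tr a Q) = zy Q := by
    funext v
    simp only [zy, dsc_tr]
    rfl
  unfold Bm
  refine Finset.sum_congr rfl fun I hI => ?_
  have hI0 : I ≠ ⊥ := ((hIDC.2.1 b A I).1 hI).1
  refine congrArg (fun z => α I * z) ?_
  refine Finset.sum_bij (fun L _ => L.map (shr a : V2 k →ₗ[𝓞 k] V2 k)) ?_ ?_ ?_ ?_
  · intro L hL
    rw [Finset.mem_filter] at hL ⊢
    exact ⟨ls_shr hFLS a I hI0 L hL.1, (dv_shr a I L Q).1 hL.2⟩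
  · intro L _ L' _ h
    exact Submodule.map_injective_of_injective (shr a).injective h
  · intro L hL
    rw [Finset.mem_filter] at hL
    refine ⟨L.map (shr (-a) : V2 k →ₗ[𝓞 k] V2 k), ?_, Pool.Agent.H49.CM4.map_map a L⟩
    rw [Finset.mem_filter]
    refine ⟨ls_shr hFLS (-a) I hI0 L hL.1, ?_⟩
    rw [dv_shr, Pool.Agent.H49.CM4.map_map]; exact hL.2
  · intro L _
    rw [hzx, hzy, zm_shr k hFOR hQZR hANR, Submodule.map_inf _ (shr a).injective, ha,
      mb_shr b M hM x]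

end Pool.Agent.H31.CMC
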